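import Pool.Agent.Lib.MP_dd84fd_nt.L2G.SpecMeas
import Pool.Agent.Lib.MP_dd84fd_nt.EM.Main
import Pool.Agent.Lib.MP_dd84fd_nt.UM.Final
import Pool.Agent.Lib.MP_dd84fd_nt.ET.Main
import Pool.Agent.Lib.MP_dd84fd_nt.ET.Fin
import Pool.Agent.Lib.MP_dd84fd_nt.ET.Law

/-!
# Goldbach's problem in sparse sets: explicit sets of polylogarithmic size

`g n` is the number of ordered pairs of primes with sum `n`, `S` the singular series and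
`J(n) = Σ_{2≤m≤n-2} 1/(log m log(n-m))`.

A finite set `𝒯` of natural numbers is good (for `D`, `ε`, `A`, `L`) if for EVERY modulus
`q ≤ D ^ (6 - ε)` and EVERY `1 ≤ a ≤ q D` with `(a, q) ≤ (log D) ^ L` all but a proportion
`(log D) ^ (-A)` of the members `n` of `a + q 𝒯` are odd or satisfy
`S(n) J(n) / 40 ≤ g(n) ≤ 2 S(n) J(n)`, and, if `q ≤ D ^ (2 - ε)`, all but a proportion
`(log D) ^ (-A)` are odd or satisfy `|g(n) - S(n) J(n)| ≤ n / (log n) ^ A`.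

1. For `y = ⌊(log D) ^ C⌋` the set `T D y` of the `0 ≤ t < D` with `p t ≡ s` modulo `D` for some prime
   `p ≤ y`, `p ∤ D`, and some `1 ≤ s ≤ y ^ 2` has at most `(log D) ^ (3 C)` elements and is good.
2. The set of the `m ^ k`, `M ≤ m < 2 M`, is good, for `D = M ^ k`, for every `k ≥ 1`.
3. Every finite set `𝒯 ⊆ [0, D]` with small large spectrum is good: it is enough that
   `|∑ e(t θ)| > #𝒯 / (log D) ^ B` holds on a set of measure at most `(log D) ^ K / D`.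

All of this follows from the laws `general` and `generalAsymptotic` for random integers.
-/

set_option autoImplicit false

namespace Pool.Agent.Results.MP_dd84fd_nt.ExplicitSets

open Finset

/-- number of ordered pairs of primes with sum `n` -/
def g (n : ℕ) : ℕ :=
  ((range (n + 1)).filter (fun p => Nat.Prime p ∧ Nat.Prime (n - p))).card

/-- the twin prime constant `∏_{p > 2} (1 - 1/(p-1)²)` -/
noncomputable def twinConstant : ℝ :=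
  ∏' p : {p : ℕ // p.Prime ∧ 2 < p}, (1 - 1 / (((p : ℕ) : ℝ) - 1) ^ 2)

/-- the singular series for `n`, `n` even -/
noncomputable def S (n : ℕ) : ℝ :=
  2 * twinConstant * ∏ p ∈ n.primeFactors.filter (fun p => 2 < p), ((p : ℝ) - 1) / ((p : ℝ) - 2)

/-- `Σ 1 / (log m log (n-m))` over `2 ≤ m ≤ n-2` -/
noncomputable def J (n : ℕ) : ℝ :=
  ∑ m ∈ Icc 2 (n - 2), 1 / (Real.log (m : ℝ) * Real.log ((n - m : ℕ) : ℝ))

/-- `g(n) < S(n) J(n) / 40` or `g(n) > 2 S(n) J(n)` -/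
def Fails (n : ℕ) : Prop :=
  (g n : ℝ) < 1 / 40 * (S n * J n) ∨ 2 * (S n * J n) < (g n : ℝ)

/-- `|g(n) - S(n) J(n)| > n / (log n) ^ A` -/
def FailsA (A n : ℕ) : Prop :=
  (n : ℝ) / Real.log n ^ A < |(g n : ℝ) - S n * J n|

open Classical in
/-- the `t`, `0 ≤ t < D`, with `p t ≡ s` modulo `D` for some prime `p ≤ y` not dividing `D` and some
`1 ≤ s ≤ y ^ 2` -/
noncomputable def T (D y : ℕ) : Finset ℕ :=
  (range D).filter (fun t => ∃ p s : ℕ, p.Prime ∧ p ≤ y ∧ ¬ p ∣ D ∧ 1 ≤ s ∧ s ≤ y ^ 2 ∧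
    p * t ≡ s [MOD D])

open Classical in
/-- almost all even members of `a + q 𝒯` have the right number of representations, for every `q`
and every `a` -/
def Good (𝒯 : Finset ℕ) (D : ℕ) (ε : ℝ) (A L : ℕ) : Prop :=
  ∀ q : ℕ, 1 ≤ q → ∀ a : ℕ, 1 ≤ a → a ≤ q * D → (Nat.gcd a q : ℝ) ≤ Real.log D ^ L →
    ((q : ℝ) ≤ (D : ℝ) ^ (6 - ε) →
      ((𝒯.filter (fun t => Even (a + q * t) ∧ Fails (a + q * t))).card : ℝ) ≤
        𝒯.card / Real.log D ^ A) ∧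
    ((q : ℝ) ≤ (D : ℝ) ^ (2 - ε) →
      ((𝒯.filter (fun t => Even (a + q * t) ∧ FailsA A (a + q * t))).card : ℝ) ≤
        𝒯.card / Real.log D ^ A)

/-- `∑_{t ∈ 𝒯} e^(2πi t θ)` -/
noncomputable def expSum (𝒯 : Finset ℕ) (θ : ℝ) : ℂ :=
  ∑ t ∈ 𝒯, Complex.exp (2 * Real.pi * (t * θ : ℝ) * Complex.I)

/-- the Fourier transform `∑_{1 ≤ n ≤ X} ξ(n) e^(2πi n θ)` -/
noncomputable def hat (X : ℕ) (ξ : ℕ → ℝ) (θ : ℝ) : ℂ :=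
  ∑ n ∈ Icc 1 X, (ξ n : ℂ) * Complex.exp (2 * Real.pi * (n * θ : ℝ) * Complex.I)

open Classical in
/-- the general law, order of magnitude, moduli up to `X ^ (6/7 - ε₀)` -/
theorem general (ε₀ : ℝ) (hε₀ : 0 < ε₀) (A : ℕ) :
    ∃ B : ℕ, ∀ K : ℕ, ∃ X₀ : ℕ, ∀ X : ℕ, X₀ ≤ X →
      ∀ q : ℕ, 1 ≤ q → (q : ℝ) ≤ (X : ℝ) ^ (6 / 7 - ε₀) →
      ∀ a : ℕ, (Nat.gcd a q : ℝ) ≤ Real.log X ^ K →
      ∀ ξ : ℕ → ℝ, (∀ n, 0 ≤ ξ n) → (∀ n, ξ n ≠ 0 → n ≡ a [MOD q]) → ∑ n ∈ Icc 1 X, ξ n = 1 →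
      MeasureTheory.volume {θ : ℝ | 0 ≤ θ ∧ θ ≤ 1 ∧ 1 / Real.log X ^ B < ‖hat X ξ θ‖} ≤
        ENNReal.ofReal (q * Real.log X ^ K / X) →
      ∑ n ∈ (Icc 1 X).filter (fun n : ℕ => Even n ∧ Fails n), ξ n ≤ 1 / Real.log X ^ A := by
  obtain ⟨B1, hB1⟩ := Pool.MP_dd84fd_nt.EM.em_67 ε₀ hε₀ A
  refine ⟨B1 + 1, fun K => ?_⟩
  obtain ⟨Y1, hY1⟩ := Pool.MP_dd84fd_nt.L2G.spec_meas B1 K
  obtain ⟨Z1, hZ1⟩ := hB1 (K + B1 + 1)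
  refine ⟨max Y1 (max Z1 3), fun X hX q hq hqX a ha ξ hξ hcl hsum hvol => ?_⟩
  simp only [max_le_iff] at hX
  obtain ⟨hXY1, hXZ1, hX3⟩ := hX
  have : NeZero (3 * X) := ⟨by omega⟩
  have hL : 1 ≤ Real.log X := by
    have h1 : (3 : ℝ) ≤ X := by exact_mod_cast hX3
    rw [Real.le_log_iff_exp_le (by linarith)]
    linarith [Real.exp_one_lt_d9]
  have h1 := hY1 X hXY1 (3 * X) rfl ξ hξ hsum.le q hq hvol
  exact hZ1 X hXZ1 (3 * X) rfl q hq hqX a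
    (ha.trans (pow_le_pow_right₀ hL (by omega))) ξ hξ hcl hsum.le h1

open Classical in
/-- the general law, asymptotic formula, moduli up to `X ^ (2/3 - ε₀)` -/
theorem generalAsymptotic (ε₀ : ℝ) (hε₀ : 0 < ε₀) (A : ℕ) :
    ∃ B : ℕ, ∀ K : ℕ, ∃ X₀ : ℕ, ∀ X : ℕ, X₀ ≤ X →
      ∀ q : ℕ, 1 ≤ q → (q : ℝ) ≤ (X : ℝ) ^ (2 / 3 - ε₀) →
      ∀ a : ℕ, (Nat.gcd a q : ℝ) ≤ Real.log X ^ K →
      ∀ ξ : ℕ → ℝ, (∀ n, 0 ≤ ξ n) → (∀ n, ξ n ≠ 0 → n ≡ a [MOD q]) → ∑ n ∈ Icc 1 X, ξ n = 1 →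
      MeasureTheory.volume {θ : ℝ | 0 ≤ θ ∧ θ ≤ 1 ∧ 1 / Real.log X ^ B < ‖hat X ξ θ‖} ≤
        ENNReal.ofReal (q * Real.log X ^ K / X) →
      ∑ n ∈ (Icc 1 X).filter (fun n : ℕ => Even n ∧ FailsA A n), ξ n ≤ 1 / Real.log X ^ A := by
  obtain ⟨B1, hB1⟩ := Pool.MP_dd84fd_nt.UM.um_final ε₀ hε₀ A
  refine ⟨B1 + 1, fun K => ?_⟩
  obtain ⟨Y1, hY1⟩ := Pool.MP_dd84fd_nt.L2G.spec_meas B1 K
  obtain ⟨Z1, hZ1⟩ := hB1 (K + B1 + 1)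
  refine ⟨max Y1 (max Z1 3), fun X hX q hq hqX a ha ξ hξ hcl hsum hvol => ?_⟩
  simp only [max_le_iff] at hX
  obtain ⟨hXY1, hXZ1, hX3⟩ := hX
  have : NeZero (3 * X) := ⟨by omega⟩
  have hL : 1 ≤ Real.log X := by
    have h1 : (3 : ℝ) ≤ X := by exact_mod_cast hX3
    rw [Real.le_log_iff_exp_le (by linarith)]
    linarith [Real.exp_one_lt_d9]
  have h1 := hY1 X hXY1 (3 * X) rfl ξ hξ hsum.le q hq hvol
  have h2 := hZ1 X hXZ1 (3 * X) rfl q hq hqX a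
    (ha.trans (pow_le_pow_right₀ hL (by omega))) ξ hξ hcl hsum.le h1
  refine le_trans (le_of_eq ?_) h2
  refine Finset.sum_congr ?_ fun _ _ => rfl
  ext n
  simp only [Finset.mem_filter]
  exact Iff.rfl

/-- for even `n ≥ 1` the property `FailsA A n` implies `FailsA A' n` for `A ≤ A'` -/
theorem FailsA.mono {A A' n : ℕ} (hA : A ≤ A') (hn : 1 ≤ n) (he : Even n) (h : FailsA A n) :
    FailsA A' n := by
  unfold FailsA at h ⊢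
  rcases lt_or_ge n 3 with h3 | h3
  · obtain rfl : n = 2 := by
      obtain ⟨r, rfl⟩ := he
      omega
    exfalso
    have e1 : g 2 = 0 := by decide
    have e2 : J 2 = 0 := by
      unfold J
      rw [show Icc 2 (2 - 2) = (∅ : Finset ℕ) by decide, Finset.sum_empty]
    rw [e1, e2, mul_zero, Nat.cast_zero, sub_zero, abs_zero] at h
    have : (0 : ℝ) ≤ ((2 : ℕ) : ℝ) / Real.log ((2 : ℕ) : ℝ) ^ A := by
      have := Real.log_nonneg (show (1 : ℝ) ≤ ((2 : ℕ) : ℝ) by norm_num)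
      positivity
    linarith
  · refine lt_of_le_of_lt ?_ h
    have h1 : (3 : ℝ) ≤ n := by exact_mod_cast h3
    have hL : 1 ≤ Real.log n := by
      rw [Real.le_log_iff_exp_le (by linarith)]
      linarith [Real.exp_one_lt_d9]
    exact div_le_div_of_nonneg_left (by linarith) (by positivity) (pow_le_pow_right₀ hL hA)

open Classical in
private theorem law6 (ε₀ : ℝ) (hε₀ : 0 < ε₀) (A : ℕ) :
    ∃ B : ℕ, ∀ K : ℕ, ∃ X₀ : ℕ, ∀ X : ℕ, X₀ ≤ X →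
      ∀ q : ℕ, 1 ≤ q → (q : ℝ) ≤ (X : ℝ) ^ (((6 : ℕ) : ℝ) / (((6 : ℕ) : ℝ) + 1) - ε₀) →
      ∀ a : ℕ, (Nat.gcd a q : ℝ) ≤ Real.log X ^ K →
      ∀ ξ : ℕ → ℝ, (∀ n, 0 ≤ ξ n) → (∀ n, ξ n ≠ 0 → n ≡ a [MOD q]) → ∑ n ∈ Icc 1 X, ξ n = 1 →
      MeasureTheory.volume {θ : ℝ | 0 ≤ θ ∧ θ ≤ 1 ∧ 1 / Real.log X ^ B <
        ‖∑ n ∈ Icc 1 X, (ξ n : ℂ) * Complex.exp (2 * Real.pi * (n * θ : ℝ) * Complex.I)‖} ≤
        ENNReal.ofReal (q * Real.log X ^ K / X) →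
      ∑ n ∈ (Icc 1 X).filter (fun n : ℕ => Even n ∧ Fails n), ξ n ≤ 1 / Real.log X ^ A := by
  have e : ((6 : ℕ) : ℝ) / (((6 : ℕ) : ℝ) + 1) = 6 / 7 := by norm_num
  rw [e]
  exact general ε₀ hε₀ A

open Classical in
private theorem law2 (A₀ : ℕ) (ε₀ : ℝ) (hε₀ : 0 < ε₀) (A : ℕ) :
    ∃ B : ℕ, ∀ K : ℕ, ∃ X₀ : ℕ, ∀ X : ℕ, X₀ ≤ X →
      ∀ q : ℕ, 1 ≤ q → (q : ℝ) ≤ (X : ℝ) ^ (((2 : ℕ) : ℝ) / (((2 : ℕ) : ℝ) + 1) - ε₀) →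
      ∀ a : ℕ, (Nat.gcd a q : ℝ) ≤ Real.log X ^ K →
      ∀ ξ : ℕ → ℝ, (∀ n, 0 ≤ ξ n) → (∀ n, ξ n ≠ 0 → n ≡ a [MOD q]) → ∑ n ∈ Icc 1 X, ξ n = 1 →
      MeasureTheory.volume {θ : ℝ | 0 ≤ θ ∧ θ ≤ 1 ∧ 1 / Real.log X ^ B <
        ‖∑ n ∈ Icc 1 X, (ξ n : ℂ) * Complex.exp (2 * Real.pi * (n * θ : ℝ) * Complex.I)‖} ≤
        ENNReal.ofReal (q * Real.log X ^ K / X) →
      ∑ n ∈ (Icc 1 X).filter (fun n : ℕ => Even n ∧ FailsA A₀ n), ξ n ≤ 1 / Real.log X ^ A := by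
  have e : ((2 : ℕ) : ℝ) / (((2 : ℕ) : ℝ) + 1) = 2 / 3 := by norm_num
  rw [e]
  obtain ⟨B, hB⟩ := generalAsymptotic ε₀ hε₀ (max A A₀)
  refine ⟨B, fun K => ?_⟩
  obtain ⟨X₀, hX₀⟩ := hB K
  refine ⟨max X₀ 3, fun X hX q hq hqX a ha ξ hξ hcl hsum hvol => ?_⟩
  rw [max_le_iff] at hX
  have h1 := hX₀ X hX.1 q hq hqX a ha ξ hξ hcl hsum hvol
  have hX3 : (3 : ℝ) ≤ X := by exact_mod_cast hX.2
  have hL : 1 ≤ Real.log X := by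
    rw [Real.le_log_iff_exp_le (by linarith)]
    linarith [Real.exp_one_lt_d9]
  refine le_trans (Finset.sum_le_sum_of_subset_of_nonneg ?_ fun n _ _ => hξ n)
    (h1.trans (one_div_le_one_div_of_le (by positivity) (pow_le_pow_right₀ hL (le_max_left _ _))))
  intro n hn
  rw [mem_filter, mem_Icc] at hn ⊢
  exact ⟨hn.1, hn.2.1, hn.2.2.mono (le_max_right _ _) hn.1.1 hn.2.1⟩

open Classical in
private theorem T_eq (D y : ℕ) (hD : 1 ≤ D) : Pool.MP_dd84fd_nt.ET.tt D y = T D y := by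
  ext t
  rw [Pool.MP_dd84fd_nt.ET.mem_tt D y t hD, T, mem_filter, mem_range]

open Classical in
theorem result (ε : ℝ) (hε : 0 < ε) (A : ℕ) :
    (∃ C₀ : ℕ, ∀ C : ℕ, C₀ ≤ C → ∀ L : ℕ, ∃ D₀ : ℕ, ∀ D : ℕ, D₀ ≤ D →
      (T D ⌊Real.log D ^ C⌋₊).Nonempty ∧
      ((T D ⌊Real.log D ^ C⌋₊).card : ℝ) ≤ Real.log D ^ (3 * C) ∧
      Good (T D ⌊Real.log D ^ C⌋₊) D ε A L) ∧
    (∀ k : ℕ, 1 ≤ k → ∀ L : ℕ, ∃ M₀ : ℕ, ∀ M : ℕ, M₀ ≤ M →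
      Good ((Ico M (2 * M)).image (fun m => m ^ k)) (M ^ k) ε A L) ∧
    (∃ B : ℕ, ∀ K L : ℕ, ∃ D₀ : ℕ, ∀ D : ℕ, D₀ ≤ D →
      ∀ 𝒯 : Finset ℕ, 𝒯.Nonempty → (∀ t ∈ 𝒯, t ≤ D) →
      MeasureTheory.volume {θ : ℝ | 0 ≤ θ ∧ θ ≤ 1 ∧
        (𝒯.card : ℝ) / Real.log D ^ B < ‖expSum 𝒯 θ‖} ≤ ENNReal.ofReal (Real.log D ^ K / D) →
      Good 𝒯 D ε A L) := by
  refine ⟨?_, ?_, ?_⟩
  · obtain ⟨C₁, hC₁⟩ := Pool.MP_dd84fd_nt.ET.explicit Fails 6 (by norm_num) law6 ε hε A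
    obtain ⟨C₂, hC₂⟩ := Pool.MP_dd84fd_nt.ET.explicit (FailsA A) 2 (by norm_num) (law2 A) ε hε A
    refine ⟨max (max C₁ C₂) 3, fun C hC L => ?_⟩
    simp only [max_le_iff] at hC
    obtain ⟨D₁, hD₁⟩ := hC₁ C hC.1.1 L
    obtain ⟨D₂, hD₂⟩ := hC₂ C hC.1.2 L
    obtain ⟨D₃, hD₃⟩ := Pool.MP_dd84fd_nt.ET.size C hC.2
    refine ⟨max (max D₁ D₂) (max D₃ 3), fun D hD => ?_⟩
    simp only [max_le_iff] at hD
    obtain ⟨h1, h2, h3, h4, h5⟩ := hD₃ D hD.2.1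
    have hD3 : (3 : ℝ) ≤ D := by exact_mod_cast hD.2.2
    have hL : 1 ≤ Real.log D := by
      rw [Real.le_log_iff_exp_le (by linarith)]
      linarith [Real.exp_one_lt_d9]
    rw [← T_eq D _ (by omega)]
    refine ⟨?_, ?_, ?_⟩
    · rw [← Finset.card_pos]
      have e1 := Pool.MP_dd84fd_nt.ET.card_tt D ⌊Real.log D ^ C⌋₊ (by omega) h5
      rw [Pool.MP_dd84fd_nt.ET.card_prs] at e1
      have e2 : (0 : ℝ) < (Pool.MP_dd84fd_nt.ET.PS D ⌊Real.log D ^ C⌋₊).card :=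
        lt_of_lt_of_le (by positivity) h4
      have e3 : 0 < (Pool.MP_dd84fd_nt.ET.PS D ⌊Real.log D ^ C⌋₊).card := by exact_mod_cast e2
      have e4 : 0 < (Pool.MP_dd84fd_nt.ET.PS D ⌊Real.log D ^ C⌋₊).card * ⌊Real.log D ^ C⌋₊ ^ 2 := by
        positivity
      omega
    · have e1 := (Pool.MP_dd84fd_nt.ET.card_tt_le D ⌊Real.log D ^ C⌋₊).trans
        (Pool.MP_dd84fd_nt.ET.card_prs_le D ⌊Real.log D ^ C⌋₊)
      calc ((Pool.MP_dd84fd_nt.ET.tt D ⌊Real.log D ^ C⌋₊).card : ℝ) ≤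
          (⌊Real.log D ^ C⌋₊ : ℝ) ^ 3 := by exact_mod_cast e1
        _ ≤ (Real.log D ^ C) ^ 3 := by gcongr
        _ = Real.log D ^ (3 * C) := by rw [← pow_mul, mul_comm]
    · intro q hq a ha1 ha hg
      constructor
      · intro hqD
        exact hD₁ D hD.1.1 q hq hqD a ha1 ha hg
      · intro hqD
        exact hD₂ D hD.1.2 q hq hqD a ha1 ha hg
  · intro k hk L
    obtain ⟨M₁, hM₁⟩ := Pool.MP_dd84fd_nt.ET.powers Fails 6 (by norm_num) law6 ε hε A k hk L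
    obtain ⟨M₂, hM₂⟩ := Pool.MP_dd84fd_nt.ET.powers (FailsA A) 2 (by norm_num) (law2 A) ε hε A k hk L
    refine ⟨max M₁ M₂, fun M hM q hq a _ ha hg => ?_⟩
    rw [max_le_iff] at hM
    constructor
    · intro hqD
      exact hM₁ M hM.1 q hq hqD a ha hg
    · intro hqD
      exact hM₂ M hM.2 q hq hqD a ha hg
  · obtain ⟨B₁, hB₁⟩ := Pool.MP_dd84fd_nt.ET.sets Fails 6 (by norm_num) law6 ε hε A
    obtain ⟨B₂, hB₂⟩ := Pool.MP_dd84fd_nt.ET.sets (FailsA A) 2 (by norm_num) (law2 A) ε hε A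
    refine ⟨max B₁ B₂, fun K L => ?_⟩
    obtain ⟨D₁, hD₁⟩ := hB₁ (max B₁ B₂) (le_max_left _ _) K L
    obtain ⟨D₂, hD₂⟩ := hB₂ (max B₁ B₂) (le_max_right _ _) K L
    refine ⟨max D₁ D₂, fun D hD 𝒯 hne hle hvol q hq a ha1 ha hg => ?_⟩
    rw [max_le_iff] at hD
    exact ⟨fun hqD => hD₁ D hD.1 𝒯 hne hle hvol q hq hqD a ha1 ha hg,
      fun hqD => hD₂ D hD.2 𝒯 hne hle hvol q hq hqD a ha1 ha hg⟩

end Pool.Agent.Results.MP_dd84fd_nt.ExplicitSets
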