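import Pool.Agent.Lib.MP_dd84fd_nt.QZ.QMain
import Pool.Agent.Lib.MP_dd84fd_nt.RZ.TopS

/-!
# Goldbach representations with `X^(1/7 + ε)` exceptions outside boundedly many moduli

`g n` is the number of ordered pairs of primes with sum `n`, `S` the singular series and
`J(n) = Σ_{2≤m≤n-2} 1/(log m log(n-m))`.  (*) is `S(n) J(n) / 40 ≤ g(n) ≤ 2 S(n) J(n)`.

For every `ε > 0` there is `M` such that for all `1/7 ≤ θ ≤ 1`, `K` and all large `X`: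

(1) for all but at most `X^(θ+ε)` of the `n ≤ X`, for every `W ≤ X - n`, at most
`M + W/(log X)^K` of the even `m` in `[n, n+W]` fail (*); and in every interval
`[n, n+W]`, `1 ≤ n`, `n + W ≤ X`, `W ≥ X^(θ+ε)`, at most `W/(log X)^K` of them;

(2) there is a set `D` of at most `M` moduli `d`, `(log X)^K ≤ d ≤ X^(1-θ)`, such that at most
`X^(θ+ε)` of the even numbers `X/2 < n ≤ X` which are divisible by no `d ∈ D` fail (*).  Each
`d` is `r/h` with `h ≤ M`, `r` the conductor of a primitive character whose `L`-function has a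
zero `ρ` with `Re ρ ≥ 1 - M log log X / log X`, `|Im ρ| ≤ (log X)^M`; at most one `d ∈ D` is less
than `X^(1/M)`, then the character is real and has a real zero `≥ 1 - M / log X`; for arbitrarily
large `X` there is no `d ∈ D` less than `X^(1/M)`;

(3) in every set of even numbers `n ≤ X` with `gcd(n, m) < (log X)^K` for `n ≠ m` at most
`X^(θ+ε)` members fail (*), and at most `X^(θ+ε)` of the even `X/2 < n ≤ X` with a prime factor
`p > X/(log X)^K`, or `p > X^(1-1/M)` if no `d ∈ D`, `d < X^(1/M)`, divides `n`.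
-/

set_option autoImplicit false

namespace Pool.Agent.Results.MP_dd84fd_nt.ExponentOneSeventh

open Finset

/-- number of ordered pairs of primes with sum `n` -/
def g (n : ℕ) : ℕ :=
  ((range (n + 1)).filter (fun p => Nat.Prime p ∧ Nat.Prime (n - p))).card

/-- the twin prime constant `∏_{p > 2} (1 - 1/(p-1)²)` -/
noncomputable def twinConstant : ℝ :=
  ∏' p : {p : ℕ // p.Prime ∧ 2 < p}, (1 - 1 / (((p : ℕ) : ℝ) - 1) ^ 2)

/-- the singular series for `n`, `n` even -/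
noncomputable def S (n : ℕ) : ℝ :=
  2 * twinConstant * ∏ p ∈ n.primeFactors.filter (fun p => 2 < p), ((p : ℝ) - 1) / ((p : ℝ) - 2)

/-- `Σ 1 / (log m log (n-m))` over `2 ≤ m ≤ n-2` -/
noncomputable def J (n : ℕ) : ℝ :=
  ∑ m ∈ Icc 2 (n - 2), 1 / (Real.log (m : ℝ) * Real.log ((n - m : ℕ) : ℝ))

/-- `g(n) < S(n) J(n) / 40` or `g(n) > 2 S(n) J(n)` -/
def Fails (n : ℕ) : Prop :=
  (g n : ℝ) < 1 / 40 * (S n * J n) ∨ 2 * (S n * J n) < (g n : ℝ)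

/-- `d = r/h`, `1 ≤ h ≤ M`, `r` the conductor of a primitive character `χ` whose `L`-function has
a zero `ρ` with `Re ρ ≥ 1 - M log log X / log X` and `|Im ρ| ≤ (log X)^M`; if `d < X^(1/M)` then `χ`
is real and has a real zero `β`, `1 - M / log X ≤ β < 1` -/
def FromZero (M X d : ℕ) : Prop :=
  ∃ (r h : ℕ) (χ : DirichletCharacter ℂ r), χ.IsPrimitive ∧ 1 ≤ h ∧ h ≤ M ∧ d * h = r ∧
    (∃ ρ : ℂ, 1 - M * Real.log (Real.log X) / Real.log X ≤ ρ.re ∧ ρ.re < 1 ∧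
      |ρ.im| ≤ Real.log X ^ M ∧ ∃ _ : NeZero r, χ.LFunction ρ = 0) ∧
    ((d : ℝ) < (X : ℝ) ^ (1 / (M : ℝ)) → χ ^ 2 = 1 ∧
      ∃ β : ℝ, 1 - M / Real.log X ≤ β ∧ β < 1 ∧ ∃ _ : NeZero r, χ.LFunction β = 0)

theorem fromZero_of {M X d : ℕ} (h : Pool.MP_dd84fd_nt.RZ.QW M X d) : FromZero M X d := by
  obtain ⟨r, k, χ, a1, a2, a3, a4, -, a5, a6⟩ := h
  exact ⟨r, k, χ, a1, a2, a3, a4, a5, a6⟩

open Classical in
/-- (1), windows: for all but at most `X^(θ+ε)` of the `n ≤ X`, for every `W ≤ X - n`, at most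
`M + W/(log X)^K` of the even `m` in `[n, n+W]` fail; every interval `[n, n+W]` in `[1, X]` with
`W ≥ X^(θ+ε)` contains at most `W/(log X)^K` of them -/
def Windows (θ ε : ℝ) (M K X : ℕ) : Prop :=
  (((Icc 1 X).filter (fun n : ℕ => ∃ W : ℕ, n + W ≤ X ∧
    (M : ℝ) + W / Real.log X ^ K < (((Icc n (n + W)).filter
      (fun m : ℕ => Even m ∧ Fails m)).card : ℝ))).card : ℝ) ≤ (X : ℝ) ^ (θ + ε) ∧
  (∀ n W : ℕ, 1 ≤ n → n + W ≤ X → (X : ℝ) ^ (θ + ε) ≤ W →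
    (((Icc n (n + W)).filter (fun m : ℕ => Even m ∧ Fails m)).card : ℝ) ≤ W / Real.log X ^ K)

open Classical in
/-- (2), moduli: `D` has at most `M` elements `d`, `(log X)^K ≤ d ≤ X^(1-θ)`, all from zeros, at most
one of them less than `X^(1/M)`; at most `X^(θ+ε)` of the even numbers `X/2 < n ≤ X` which are
divisible by no `d ∈ D` fail -/
def Moduli (θ ε : ℝ) (M K X : ℕ) (D : Finset ℕ) : Prop :=
  D.card ≤ M ∧
  (∀ d ∈ D, Real.log X ^ K ≤ (d : ℝ) ∧ (d : ℝ) ≤ (X : ℝ) ^ (1 - θ) ∧ FromZero M X d) ∧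
  (D.filter (fun d : ℕ => (d : ℝ) < (X : ℝ) ^ (1 / (M : ℝ)))).card ≤ 1 ∧
  (((Icc 1 X).filter (fun n : ℕ => X < 2 * n ∧ Even n ∧ (∀ d ∈ D, ¬ d ∣ n) ∧
    Fails n)).card : ℝ) ≤ (X : ℝ) ^ (θ + ε)

open Classical in
/-- (3): at most `X^(θ+ε)` members fail in every set of even numbers in `[1, X]` with pairwise
greatest common divisors less than `(log X)^K`, and at most `X^(θ+ε)` of the even `X/2 < n ≤ X` with a
prime factor `p > X/(log X)^K`, or `p > X^(1-1/M)` if no `d ∈ D`, `d < X^(1/M)`, divides `n` -/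
def Families (θ ε : ℝ) (M K X : ℕ) (D : Finset ℕ) : Prop :=
  (∀ N : Finset ℕ, (∀ n ∈ N, 1 ≤ n ∧ n ≤ X ∧ Even n) →
    (∀ n ∈ N, ∀ m ∈ N, n ≠ m → (Nat.gcd n m : ℝ) < Real.log X ^ K) →
    ((N.filter (fun n => Fails n)).card : ℝ) ≤ (X : ℝ) ^ (θ + ε)) ∧
  (((Icc 1 X).filter (fun n : ℕ => X < 2 * n ∧ Even n ∧
    (∃ p : ℕ, p.Prime ∧ p ∣ n ∧ ((X : ℝ) / Real.log X ^ K < p ∨
      ((X : ℝ) ^ (1 - 1 / (M : ℝ)) < p ∧
        ∀ d ∈ D, (d : ℝ) < (X : ℝ) ^ (1 / (M : ℝ)) → ¬ d ∣ n))) ∧ Fails n)).card : ℝ) ≤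
      (X : ℝ) ^ (θ + ε)

/-- For every `ε > 0` there is `M` such that for all `1/7 ≤ θ ≤ 1` and `K` there are sets of moduli
`D X` with (1), (2), (3) for all large `X`, and for arbitrarily large `X` no `d ∈ D X` is less than
`X^(1/M)`. -/
theorem result : ∀ ε : ℝ, 0 < ε → ∃ M : ℕ, ∀ θ : ℝ, 1 / 7 ≤ θ → θ ≤ 1 → ∀ K : ℕ,
    ∃ D : ℕ → Finset ℕ,
      (∃ X₀ : ℕ, ∀ X : ℕ, X₀ ≤ X →
        Windows θ ε M K X ∧ Moduli θ ε M K X (D X) ∧ Families θ ε M K X (D X)) ∧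
      ∀ X₁ : ℕ, ∃ X : ℕ, X₁ ≤ X ∧ ∀ d ∈ D X, (X : ℝ) ^ (1 / (M : ℝ)) ≤ d := by
  intro ε hε
  obtain ⟨M, hM⟩ := Pool.MP_dd84fd_nt.RZ.top7 Pool.MP_dd84fd_nt.QZ.grQ ε hε
  refine ⟨M, fun θ h1 h2 K => ?_⟩
  obtain ⟨D, ⟨X0, hX0⟩, hD⟩ := hM θ h1 h2 K
  refine ⟨D, ⟨X0, fun X hX => ?_⟩, hD⟩
  obtain ⟨c1, c2, c3, c4, c5, c6, c7⟩ := hX0 X hX
  exact ⟨c1, ⟨c3, fun d hd => ⟨(c4 d hd).1, (c4 d hd).2.1, fromZero_of (c4 d hd).2.2⟩, c5, c6⟩,
    c2, c7⟩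

end Pool.Agent.Results.MP_dd84fd_nt.ExponentOneSeventh
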