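import Pool.Agent.Lib.MP_dd84fd_nt.EF.Zer

/-!
# The explicit formula for the Goldbach representations with `X^(1/3 + ε)` exceptions

`g n` is the number of ordered pairs of primes with sum `n`, `S` the singular series and
`J(n) = Σ_{2≤m≤n-2} 1/(log m log(n-m))`.  For a set `Y` of primitive characters the secondary terms are
`Σ_{ψ₁, ψ₂ ∈ Y} S(n; ψ₁, ψ₂) I(n; ψ₁, ψ₂)`, where
`S(n; ψ₁, ψ₂) = Σ_q φ(q)^(-2) Σ_{b, c} conj ψ₁(b) conj ψ₂(c) c_q(b + c - n)`, sum over the common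
multiples `q` of the moduli and the reduced residues `b`, `c` modulo `q`, `c_q` the Ramanujan sum, is
the singular series of the pair, and `I(n; ψ₁, ψ₂) = ∫ w(x) S_ψ₁(x) S_ψ₂(x) e(-nx) dx`, integral over
`|x| ≤ 1/2`, `S_ψ(x) = Σ_{p ≤ X} ψ(p) e(px)`, with the weight `w(x) = 1` for `|x| ≤ T/X`,
`w(x) = 1 - log₂(|x| X/T)` for `T/X ≤ |x| ≤ 2T/X` and `w(x) = 0` for `|x| ≥ 2T/X`.

For `1/3 ≤ θ ≤ 1`, `ε > 0`, uniformly in `(log X)^(-A) ≤ δ ≤ 1`, all even `X/2 < n ≤ X` with at most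
`X^(θ + ε)` exceptions satisfy `|g(n) - S(n) J(n) - (secondary terms)| ≤ δ S(n) J(n)`, `Y` a set of at
most `C δ^(-18)` primitive characters with moduli in `[(log X)^K, X^(1-θ)]`, each with a zero `ρ` of its
`L`-function, `1 - M log log X/log X ≤ Re ρ < 1`, `|Im ρ| ≤ (log X)^M` (so `Y` is empty under the
generalized Riemann hypothesis).  The singular series of a pair converges absolutely and is at most
`C (n/φ(n)) h^(-1/4)`, `h = [r₁, r₂] / ([r₁, r₂], n)` for the moduli `r₁`, `r₂`, and the integral is at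
most `C X/(log X)²`.
For `δ ≥ ν`, `ν` fixed, at most one character in `Y` has a modulus `≤ X^(1/N)`, it is real and its
`L`-function has a real zero `β`, `1 - N/log X ≤ β < 1`.

Consequences: the asymptotic formula `|g(n) - S(n) J(n)| ≤ δ S(n) J(n)` (`Moduli`) for all even
`X/2 < n ≤ X` with at most `X^(θ + ε)` exceptions which are multiples of none of `C δ^(-C)` numbers
`d = r/h`, `r` the modulus of a character in `Y`, `h ≤ N δ^(-C)`; (`Windows`) for all but a bounded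
number of the even members of short intervals; (`Families`) in sets with small greatest common divisors.
-/

set_option autoImplicit false

namespace Pool.Agent.Results.MP_dd84fd_nt.ExponentOneThird

open Finset

/-- number of ordered pairs of primes with sum `n` -/
def g (n : ℕ) : ℕ :=
  ((range (n + 1)).filter (fun p => Nat.Prime p ∧ Nat.Prime (n - p))).card

/-- the twin prime constant `∏_{p > 2} (1 - 1/(p-1)²)` -/
noncomputable def twinConstant : ℝ :=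
  ∏' p : {p : ℕ // p.Prime ∧ 2 < p}, (1 - 1 / (((p : ℕ) : ℝ) - 1) ^ 2)

/-- the singular series for `n`, `n` even -/
noncomputable def S (n : ℕ) : ℝ :=
  2 * twinConstant * ∏ p ∈ n.primeFactors.filter (fun p => 2 < p), ((p : ℝ) - 1) / ((p : ℝ) - 2)

/-- `Σ 1 / (log m log (n-m))` over `2 ≤ m ≤ n-2` -/
noncomputable def J (n : ℕ) : ℝ :=
  ∑ m ∈ Icc 2 (n - 2), 1 / (Real.log (m : ℝ) * Real.log ((n - m : ℕ) : ℝ))

/-- `e(x) = exp(2πix)` -/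
noncomputable def e (x : ℝ) : ℂ := Complex.exp (2 * Real.pi * x * Complex.I)

/-- the Dirichlet characters of all moduli: pairs of a modulus and a character -/
abbrev Character : Type := (r : ℕ) × DirichletCharacter ℂ r

/-- the reduced residues modulo `q` -/
def residues (q : ℕ) : Finset ℕ := (range q).filter (fun a => Nat.Coprime a q)

/-- the Ramanujan sum `c_q(m)` -/
noncomputable def ramanujan (q : ℕ) (m : ℤ) : ℂ := ∑ a ∈ residues q, e ((a : ℝ) * (m : ℝ) / (q : ℝ))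

/-- the term of the singular series of a pair of characters: zero unless `q` is a common multiple of
the moduli -/
noncomputable def term (n : ℕ) (ψ₁ ψ₂ : Character) (q : ℕ) : ℂ :=
  if ψ₁.1 ∣ q ∧ ψ₂.1 ∣ q then
    1 / (Nat.totient q : ℂ) ^ 2 * ∑ b ∈ residues q, ∑ c ∈ residues q,
      (starRingEnd ℂ) (ψ₁.2 (b : ZMod ψ₁.1)) * (starRingEnd ℂ) (ψ₂.2 (c : ZMod ψ₂.1)) *
        ramanujan q ((b : ℤ) + c - n)
  else 0

/-- the singular series of a pair of characters -/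
noncomputable def pairSeries (n : ℕ) (ψ₁ ψ₂ : Character) : ℂ := ∑' q : ℕ, term n ψ₁ ψ₂ q

/-- `S_ψ(x) = Σ_{p ≤ X} ψ(p) e(px)` -/
noncomputable def primeSum (X : ℕ) (ψ : Character) (x : ℝ) : ℂ :=
  ∑ p ∈ (Icc 1 X).filter Nat.Prime, ψ.2 (p : ZMod ψ.1) * e ((p : ℝ) * x)

/-- the weight: `1` for `|x| ≤ t`, `0` for `|x| ≥ 2t`, `1 - log₂(|x|/t)` between -/
noncomputable def weight (t x : ℝ) : ℝ := max 0 (min 1 (1 - Real.logb 2 (|x| / t)))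

/-- the integral of `w(x) S_ψ₁(x) S_ψ₂(x) e(-nx)` over `|x| ≤ 1/2` -/
noncomputable def pairIntegral (X n : ℕ) (t : ℝ) (ψ₁ ψ₂ : Character) : ℂ :=
  ∫ x in (-(1 / 2) : ℝ)..(1 / 2), ((weight t x : ℝ) : ℂ) * (primeSum X ψ₁ x * primeSum X ψ₂ x *
    e (-((n : ℝ) * x)))

/-- the secondary terms of the explicit formula; the integrals have the weight with `t = T/X` -/
noncomputable def secondary (X n : ℕ) (T : ℝ) (Y : Finset Character) : ℂ :=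
  ∑ ψ₁ ∈ Y, ∑ ψ₂ ∈ Y, pairSeries n ψ₁ ψ₂ * pairIntegral X n (T / X) ψ₁ ψ₂

open Classical in
/-- (WINDOWS) For all `A`, `K`, `X ≥ X₀`, `(log X)^(-A) ≤ δ ≤ 1`: for all but at most `X^(θ+ε)` of the
`n ≤ X` and every `W ≤ X - n` at most `C δ^(-C) + W/(log X)^K` of the even `m` in `[n, n + W]` satisfy
`|g(m) - S(m) J(m)| > δ S(m) J(m)`; for EVERY `n` and every `W`, `X^(θ+ε) ≤ W ≤ X - n`, at most
`W/(log X)^K`. -/
def Windows (θ ε : ℝ) (C : ℕ) : Prop :=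
  ∀ A K : ℕ, ∃ X₀ : ℕ, ∀ X : ℕ, X₀ ≤ X → ∀ δ : ℝ, 1 / Real.log X ^ A ≤ δ → δ ≤ 1 →
    (((Icc 1 X).filter (fun n => ∃ W : ℕ, n + W ≤ X ∧ C / δ ^ C + W / Real.log X ^ K <
      (((Icc n (n + W)).filter (fun m : ℕ => Even m ∧
        δ * (S m * J m) < |(g m : ℝ) - S m * J m|)).card : ℝ))).card : ℝ) ≤ (X : ℝ) ^ (θ + ε) ∧
    ∀ n W : ℕ, 1 ≤ n → n + W ≤ X → (X : ℝ) ^ (θ + ε) ≤ W →
      (((Icc n (n + W)).filter (fun m : ℕ => Even m ∧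
        δ * (S m * J m) < |(g m : ℝ) - S m * J m|)).card : ℝ) ≤ W / Real.log X ^ K

open Classical in
/-- (FAMILIES) For all `A`, `K`, `X ≥ X₀`: in every set `N` of even numbers in `[1, X]` with
`gcd(n, m) < (log X)^K` for `n ≠ m` all but at most `X^(θ+ε)` members satisfy
`|g(n) - S(n) J(n)| ≤ n / (log n)^A` (for example `n = 2p`, `p ≤ X/2` prime). -/
def Families (θ ε : ℝ) : Prop :=
  ∀ A K : ℕ, ∃ X₀ : ℕ, ∀ X : ℕ, X₀ ≤ X → ∀ N : Finset ℕ, (∀ n ∈ N, 1 ≤ n ∧ n ≤ X ∧ Even n) →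
    (∀ n ∈ N, ∀ m ∈ N, n ≠ m → (Nat.gcd n m : ℝ) < Real.log X ^ K) →
    ((N.filter (fun n : ℕ => (n : ℝ) / Real.log (n : ℝ) ^ A < |(g n : ℝ) - S n * J n|)).card : ℝ) ≤
      (X : ℝ) ^ (θ + ε)

open Classical in
/-- (FORMULA) `Y` is a set of at most `C δ^(-18)` primitive characters `ψ`, with moduli in
`[(log X)^K, X^(1-θ)]`, a zero `ρ` of `L(s, ψ)` with `1 - M log log X / log X ≤ Re ρ < 1`,
`|Im ρ| ≤ (log X)^M`, and a sum over primes `p ≤ y` larger than `y / (log X)^M` for some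
`X^(1/11) ≤ y ≤ X`; for `ψ₁, ψ₂ ∈ Y` and `n ≥ 1` the singular series of the pair converges absolutely and
is at most `C (n/φ(n)) h^(-1/4)`, `h = [r₁, r₂] / ([r₁, r₂], n)`, and the integral of the pair is at most
`C X / (log X)²`; at most `X^(θ+ε)` of the even numbers `X/2 < n ≤ X` satisfy
`|g(n) - S(n) J(n) - (secondary terms)| > δ S(n) J(n)`, where `T = (log X)^B`. -/
def Formula (θ ε : ℝ) (C B M K X : ℕ) (δ : ℝ) (Y : Finset Character) : Prop :=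
  (Y.card : ℝ) ≤ C / δ ^ 18 ∧
  (∀ ψ ∈ Y, ψ.2.IsPrimitive ∧ Real.log X ^ K ≤ (ψ.1 : ℝ) ∧ (ψ.1 : ℝ) ≤ (X : ℝ) ^ (1 - θ) ∧
    (∃ ρ : ℂ, 1 - M * Real.log (Real.log X) / Real.log X ≤ ρ.re ∧ ρ.re < 1 ∧
      |ρ.im| ≤ Real.log X ^ M ∧ ∃ _ : NeZero ψ.1, ψ.2.LFunction ρ = 0) ∧
    ∃ y : ℕ, (X : ℝ) ^ (1 / 11 : ℝ) ≤ y ∧ y ≤ X ∧ (y : ℝ) / Real.log X ^ M <
      ‖∑ p ∈ (Icc 1 y).filter Nat.Prime, ψ.2 (p : ZMod ψ.1)‖) ∧
  (∀ ψ₁ ∈ Y, ∀ ψ₂ ∈ Y, ∀ n : ℕ, 1 ≤ n → (Summable fun q : ℕ => ‖term n ψ₁ ψ₂ q‖) ∧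
    ‖pairSeries n ψ₁ ψ₂‖ ≤ C * ((n : ℝ) / (Nat.totient n : ℝ)) *
      ((Nat.lcm ψ₁.1 ψ₂.1 / Nat.gcd (Nat.lcm ψ₁.1 ψ₂.1) n : ℕ) : ℝ) ^ (-(1 / 4 : ℝ)) ∧
    ‖pairIntegral X n (Real.log X ^ B / X) ψ₁ ψ₂‖ ≤ C * (X / Real.log X ^ 2)) ∧
  (((Icc 1 X).filter (fun n : ℕ => X < 2 * n ∧ Even n ∧ δ * (S n * J n) <
    ‖(((g n : ℝ) - S n * J n : ℝ) : ℂ) - secondary X n (Real.log X ^ B) Y‖)).card : ℝ) ≤
      (X : ℝ) ^ (θ + ε)

open Classical in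
/-- (MODULI) `D` is a set of at most `C δ^(-C)` numbers `d`, `(log X)^K ≤ d ≤ X^(1-θ)`, each of the form
`r/h` with `r` the modulus of a character in `Y` and `h ≤ N δ^(-C)`, such that at most `X^(θ+ε)` of the
even numbers `X/2 < n ≤ X` which are divisible by no `d ∈ D` satisfy
`|g(n) - S(n) J(n)| > δ S(n) J(n)`. -/
def Moduli (θ ε : ℝ) (C N K X : ℕ) (δ : ℝ) (Y : Finset Character) (D : Finset ℕ) : Prop :=
  (D.card : ℝ) ≤ C / δ ^ C ∧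
  (∀ d ∈ D, Real.log X ^ K ≤ (d : ℝ) ∧ (d : ℝ) ≤ (X : ℝ) ^ (1 - θ) ∧
    ∃ ψ ∈ Y, ∃ h : ℕ, d * h = ψ.1 ∧ (h : ℝ) ≤ N / δ ^ C) ∧
  (((Icc 1 X).filter (fun n : ℕ => X < 2 * n ∧ Even n ∧ (∀ d ∈ D, ¬ d ∣ n) ∧
    δ * (S n * J n) < |(g n : ℝ) - S n * J n|)).card : ℝ) ≤ (X : ℝ) ^ (θ + ε)

open Classical in
/-- (EXCEPTIONAL CHARACTER) At most one `d ∈ D` is less than `X^(1/N)`; every `ψ ∈ Y` has an interval
`(x, x + H]` in `[X^(1/2), X]`, `x/(log X)^M ≤ H ≤ x`, with `|Σ_{x < m ≤ x+H} Λ(m) ψ(m)| ≥ H/N`; at most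
one `ψ ∈ Y` has a modulus `≤ X^(1/N)`, it is real and `L(β, ψ) = 0` for a real `β`,
`1 - N/log X ≤ β < 1`. -/
def Exceptional (N M X : ℕ) (Y : Finset Character) (D : Finset ℕ) : Prop :=
  (D.filter (fun d : ℕ => (d : ℝ) < (X : ℝ) ^ (1 / (N : ℝ)))).card ≤ 1 ∧
  ∀ ψ ∈ Y, (∃ x H : ℝ, 0 < H ∧ (X : ℝ) ^ (1 / 2 : ℝ) ≤ x ∧ x + H ≤ X ∧ H ≤ x ∧
      x ≤ H * Real.log X ^ M ∧ H / N ≤ ‖∑ m ∈ Ioc ⌊x⌋₊ ⌊x + H⌋₊,
        ((ArithmeticFunction.vonMangoldt m : ℝ) : ℂ) * ψ.2 (m : ZMod ψ.1)‖) ∧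
    ((ψ.1 : ℝ) ≤ (X : ℝ) ^ (1 / (N : ℝ)) → ψ.2 ^ 2 = 1 ∧
      (∃ β : ℝ, 1 - N / Real.log X ≤ β ∧ β < 1 ∧ ∃ _ : NeZero ψ.1, ψ.2.LFunction β = 0) ∧
      ∀ ψ' ∈ Y, (ψ'.1 : ℝ) ≤ (X : ℝ) ^ (1 / (N : ℝ)) → ψ' = ψ)

/-- For all `1/3 ≤ θ ≤ 1`, `ε > 0` there is `C` such that `Windows`, `Families` and the following hold:
for every `ν > 0` there is `N` such that for every `A` there are `B`, `M` such that for every `K` there is
`X₀` such that for all `X ≥ X₀` and all `δ`, `(log X)^(-A) ≤ δ ≤ 1`, there are a set `Y` of characters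
with the explicit formula (`Formula`) and a set `D` of moduli outside whose multiples there are no
secondary terms (`Moduli`), and, if `δ ≥ ν`, at most one of the characters has a small modulus
(`Exceptional`). -/
theorem result (θ ε : ℝ) (h1 : 1 / 3 ≤ θ) (h2 : θ ≤ 1) (hε : 0 < ε) : ∃ C : ℕ,
    Windows θ ε C ∧ Families θ ε ∧
    ∀ ν : ℝ, 0 < ν → ∃ N : ℕ, 1 ≤ N ∧ ∀ A : ℕ, ∃ B M : ℕ, ∀ K : ℕ, ∃ X₀ : ℕ, ∀ X : ℕ, X₀ ≤ X →
      ∀ δ : ℝ, 1 / Real.log X ^ A ≤ δ → δ ≤ 1 → ∃ (Y : Finset Character) (D : Finset ℕ),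
        Formula θ ε C B M K X δ Y ∧ Moduli θ ε C N K X δ Y D ∧ (ν ≤ δ → Exceptional N M X Y D) :=
  Pool.MP_dd84fd_nt.EF.last_z θ ε h1 h2 hε

end Pool.Agent.Results.MP_dd84fd_nt.ExponentOneThird
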