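import Pool.Agent.Lib.MP_dd84fd_nt.TC.MainH
import Pool.Agent.Lib.MP_dd84fd_nt.TC.MainV
import Pool.Agent.Lib.MP_dd84fd_nt.TC.VAll

/-!
# Two failures of Goldbach's problem repel each other

`g n` is the number of ordered pairs of primes with sum `n`, `S` the singular series and
`J(n) = Σ_{2≤m≤n-2} 1/(log m log(n-m))`.  An even number `m` fails if `g(m) ≤ δ S(m) J(m)`.

For every `ε > 0` there are `δ, c > 0`, `M` and sets `D(X)` with at most one element such that for all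
large `X` and every `h ≥ 1`

* outside a set `G` of at most `min(h, X^(1/3)) X^(1/3+ε)` numbers, two failures `m < m' ≤ X` with
  `m' ≤ m + h`, `m' ≤ 5m/4`, `m m' ≢ 2 (mod 3)` and greatest common divisor at most `X^c` are both
  divisible by an element of `D(X)` (`result`);
* outside a set `G` of at most `X^(1/3+ε) + min(h, X^(1/2)) X^ε` numbers, two failures `m < m' ≤ X` with
  `m' ≤ m + h`, `m' ≤ (1 + 1/M) m`, `m ≡ m' (mod M)` and greatest common divisor at most `X^c` are both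
  divisible by an element of `D(X)` (`same_class`).

`D(X)` is empty for arbitrarily large `X`; its element is larger than every power of `log X` and comes from a
Landau-Siegel zero (`RZ`).  Nothing is assumed.

Consequences, also in `result`: for all but `X^(1/3+ε)` of the `n ≤ X` at most two even numbers in
`[n, n + (log X)^K]` fail, at most two numbers in `[n, n + X^c]` which are not divisible by an element of
`D(X)` fail, and, if `n` is even, one of `n`, `n + 2`, `n + 4` and one of `n`, `n + 6` has `g > δ S J`; all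
but at most `X^(1/3+ε)` odd numbers `N ≤ X` are `p₁ + p₂ + p₃` with `p₃ ∈ {5, 11}`.
-/

set_option autoImplicit false

namespace Pool.Agent.Results.MP_dd84fd_nt.GoldbachGaps

open Finset

/-- number of ordered pairs of primes with sum `n` -/
def g (n : ℕ) : ℕ :=
  ((range (n + 1)).filter (fun p => Nat.Prime p ∧ Nat.Prime (n - p))).card

/-- the twin prime constant `∏_{p > 2} (1 - 1/(p-1)²)` -/
noncomputable def twinConstant : ℝ :=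
  ∏' p : {p : ℕ // p.Prime ∧ 2 < p}, (1 - 1 / (((p : ℕ) : ℝ) - 1) ^ 2)

/-- the singular series for `n`, `n` even -/
noncomputable def S (n : ℕ) : ℝ :=
  2 * twinConstant * ∏ p ∈ n.primeFactors.filter (fun p => 2 < p), ((p : ℝ) - 1) / ((p : ℝ) - 2)

/-- `Σ 1 / (log m log (n-m))` over `2 ≤ m ≤ n-2` -/
noncomputable def J (n : ℕ) : ℝ :=
  ∑ m ∈ Icc 2 (n - 2), 1 / (Real.log (m : ℝ) * Real.log ((n - m : ℕ) : ℝ))

/-- `m` is even and `g(m) ≤ δ S(m) J(m)` -/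
def Fails (δ : ℝ) (m : ℕ) : Prop := Even m ∧ (g m : ℝ) ≤ δ * (S m * J m)

/-- `d = r / k`, `1 ≤ k ≤ M`, `r` the conductor of a real primitive character whose `L`-function has a
real zero `β`, `1 - M / log X ≤ β < 1` -/
def RZ (M X d : ℕ) : Prop :=
  ∃ (r k : ℕ) (χ : DirichletCharacter ℂ r), χ.IsPrimitive ∧ χ ^ 2 = 1 ∧ 1 ≤ k ∧ k ≤ M ∧ d * k = r ∧
    ∃ β : ℝ, 1 - M / Real.log X ≤ β ∧ β < 1 ∧ ∃ _ : NeZero r, DirichletCharacter.LFunction χ β = 0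

open Classical in
/-- For every `ε > 0` there are `δ, c > 0`, `M ≥ 1` and sets `D(X)` of at most one number, empty for
arbitrarily large `X`, such that for all `K` there is `X₀` such that for all `X ≥ X₀`:

* an element `d` of `D(X)` is larger than `(log X)^K` and comes from a Landau-Siegel zero (`RZ`);
* outside a set `E` of at most `X^(1/3+ε)` numbers, for `n ≤ X` at most two even numbers of
  `[n, n + (log X)^K]` fail, at most two numbers of `[n, n + X^c]` which are not divisible by an element of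
  `D(X)` fail, and, if `n` is even, one of `n`, `n + 2`, `n + 4` and one of `n`, `n + 6` has `g > δ S J`;
* all but at most `X^(1/3+ε)` odd numbers `N ≤ X` are `p₁ + p₂ + p₃` with `p₃ ∈ {5, 11}`;
* (the general form, of which the last two points are consequences) for every `h ≥ 1` there is a set `G` of
  at most `min(h, X^(1/3)) X^(1/3+ε)` numbers such that any two failures `m < m' ≤ X` outside `G` with
  `m' ≤ m + h`, `4 m' ≤ 5 m`, `m m' ≢ 2 (mod 3)` and `gcd(m, m') ≤ X^c` are both divisible by an element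
  of `D(X)`. -/
theorem result (ε : ℝ) (hε : 0 < ε) : ∃ δ c : ℝ, ∃ M : ℕ, 0 < δ ∧ 0 < c ∧ 1 ≤ M ∧
    ∃ D : ℕ → Finset ℕ, (∀ X, (D X).card ≤ 1) ∧ (∀ X₁ : ℕ, ∃ X : ℕ, X₁ ≤ X ∧ D X = ∅) ∧
    ∀ K : ℕ, ∃ X₀ : ℕ, ∀ X : ℕ, X₀ ≤ X →
      (∀ d ∈ D X, Real.log X ^ K < d ∧ RZ M X d) ∧
      (∃ E : Finset ℕ, (E.card : ℝ) ≤ (X : ℝ) ^ (1 / 3 + ε) ∧ ∀ n : ℕ, 1 ≤ n → n ≤ X → n ∉ E →
        ((Icc n (n + ⌊Real.log X ^ K⌋₊)).filter (fun m => Fails δ m)).card ≤ 2 ∧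
        ((Icc n (n + ⌊(X : ℝ) ^ c⌋₊)).filter (fun m => Fails δ m ∧ ∀ d ∈ D X, ¬ d ∣ m)).card ≤ 2 ∧
        (Even n → (∃ m : ℕ, (m = n ∨ m = n + 2 ∨ m = n + 4) ∧ δ * (S m * J m) < g m) ∧
          ∃ m : ℕ, (m = n ∨ m = n + 6) ∧ δ * (S m * J m) < g m)) ∧
      (((Icc 1 X).filter (fun N : ℕ => Odd N ∧ ¬ ∃ p₁ p₂ p₃ : ℕ, p₁.Prime ∧ p₂.Prime ∧
        (p₃ = 5 ∨ p₃ = 11) ∧ p₁ + p₂ + p₃ = N)).card : ℝ) ≤ (X : ℝ) ^ (1 / 3 + ε) ∧
      ∀ h : ℕ, 1 ≤ h → ∃ G : Finset ℕ,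
        (G.card : ℝ) ≤ min (h : ℝ) ((X : ℝ) ^ (1 / 3 : ℝ)) * (X : ℝ) ^ (1 / 3 + ε) ∧
        ∀ m m' : ℕ, m < m' → m' ≤ X → m' ≤ m + h → 4 * m' ≤ 5 * m → m ∉ G → m' ∉ G →
          Fails δ m → Fails δ m' → m * m' % 3 ≠ 2 → (Nat.gcd m m' : ℝ) ≤ (X : ℝ) ^ c →
          ∃ d ∈ D X, d ∣ Nat.gcd m m' := by
  obtain ⟨δ, c, M, hδ, hc, hM, D, h1, h2, h⟩ :=
    Pool.MP_dd84fd_nt.TC.v_all Pool.MP_dd84fd_nt.TC.fin_allVZ ε hε
  refine ⟨δ, c, M, hδ, hc, hM, D, h1, h2, fun K => ?_⟩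
  obtain ⟨X₀, h⟩ := h K
  refine ⟨X₀, fun X hX => ?_⟩
  obtain ⟨a1, a2, a3, a4⟩ := h X hX
  exact ⟨a1, a2, a3, fun hh h1 => (a4 hh h1).1⟩

/-- pairs of failures in one class modulo `M`, together with the pairs of `result`: the numbers `δ`, `c`,
`M` and the sets `D(X)` are the same for both -/
theorem same_class (ε : ℝ) (hε : 0 < ε) : ∃ δ c : ℝ, ∃ M : ℕ, 0 < δ ∧ 0 < c ∧ 1 ≤ M ∧
    ∃ D : ℕ → Finset ℕ, ((∀ X, (D X).card ≤ 1) ∧ (∀ X₁ : ℕ, ∃ X : ℕ, X₁ ≤ X ∧ D X = ∅) ∧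
      ∀ K : ℕ, ∃ X₀ : ℕ, ∀ X : ℕ, X₀ ≤ X → ∀ d ∈ D X, Real.log X ^ K < d ∧ RZ M X d) ∧
    ∃ X₀ : ℕ, ∀ X : ℕ, X₀ ≤ X → ∀ h : ℕ, 1 ≤ h →
      (∃ G : Finset ℕ,
        (G.card : ℝ) ≤ min (h : ℝ) ((X : ℝ) ^ (1 / 3 : ℝ)) * (X : ℝ) ^ (1 / 3 + ε) ∧
        ∀ m m' : ℕ, m < m' → m' ≤ X → m' ≤ m + h → 4 * m' ≤ 5 * m → m ∉ G → m' ∉ G →
          Fails δ m → Fails δ m' → m * m' % 3 ≠ 2 → (Nat.gcd m m' : ℝ) ≤ (X : ℝ) ^ c →
          ∃ d ∈ D X, d ∣ Nat.gcd m m') ∧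
      (∃ G : Finset ℕ, (G.card : ℝ) ≤ (X : ℝ) ^ (1 / 3 + ε) +
          min (h : ℝ) ((X : ℝ) ^ (1 / 2 : ℝ)) * (X : ℝ) ^ ε ∧
        ∀ m m' : ℕ, m < m' → m' ≤ X → m' ≤ m + h → M * m' ≤ (M + 1) * m → m ∉ G → m' ∉ G →
          Fails δ m → Fails δ m' → m ≡ m' [MOD M] → (Nat.gcd m m' : ℝ) ≤ (X : ℝ) ^ c →
          ∃ d ∈ D X, d ∣ Nat.gcd m m') :=
  Pool.MP_dd84fd_nt.TC.fin_allVZ ε hε

open Classical in
/-- windows of length `(log X)^K`: any two failures `m < m'` in `[n, n + (log X)^K]` satisfy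
`m m' ≡ 2 (mod 3)`, there are at most two failures, and, if `n` is even, one of `n`, `n+2`, `n+4` has
`g > δ S J`; and almost all odd numbers are `p₁ + p₂ + p₃` with `p₃ ∈ {3, 5, 7}` -/
theorem short_windows (ε : ℝ) (hε : 0 < ε) : ∃ δ : ℝ, 0 < δ ∧ ∀ K : ℕ, ∃ X₀ : ℕ, ∀ X : ℕ,
    X₀ ≤ X → (∃ E : Finset ℕ, (E.card : ℝ) ≤ (X : ℝ) ^ (1 / 3 + ε) ∧
      ∀ n : ℕ, 1 ≤ n → n ≤ X → n ∉ E →
        (∀ m m' : ℕ, n ≤ m → m < m' → (m' : ℝ) ≤ n + Real.log X ^ K → Fails δ m → Fails δ m' →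
          m * m' % 3 = 2) ∧
        ((Icc n (n + ⌊Real.log X ^ K⌋₊)).filter (fun m => Fails δ m)).card ≤ 2 ∧
        (Even n → ∃ m : ℕ, (m = n ∨ m = n + 2 ∨ m = n + 4) ∧ δ * (S m * J m) < g m)) ∧
    (((Icc 1 X).filter (fun N : ℕ => Odd N ∧ ¬ ∃ p₁ p₂ p₃ : ℕ, p₁.Prime ∧ p₂.Prime ∧
      (p₃ = 3 ∨ p₃ = 5 ∨ p₃ = 7) ∧ p₁ + p₂ + p₃ = N)).card : ℝ) ≤ (X : ℝ) ^ (1 / 3 + ε) :=
  Pool.MP_dd84fd_nt.TC.gap_all
    (Pool.MP_dd84fd_nt.TC.finT_of_finH Pool.MP_dd84fd_nt.TC.fin_allH) ε hε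

open Classical in
/-- failures at any distance -/
theorem far (ε : ℝ) (hε : 0 < ε) : ∃ δ c : ℝ, 0 < δ ∧ 0 < c ∧ ∀ K : ℕ, ∃ X₀ : ℕ, ∀ X : ℕ,
    X₀ ≤ X → ∃ d : ℕ, Real.log X ^ K < d ∧ ∃ G : Finset ℕ,
      (G.card : ℝ) ≤ (X : ℝ) ^ (2 / 3 + ε) ∧ ∀ A : Finset ℕ, (∀ a ∈ A, 4 * X < 5 * a ∧ a ≤ X) →
        ((∀ a ∈ A, ∀ b ∈ A, a ≠ b → (Nat.gcd a b : ℝ) ≤ (X : ℝ) ^ c) →
          (A.filter (fun m => Fails δ m ∧ m ∉ G ∧ ¬ d ∣ m)).card ≤ 2) ∧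
        ((∀ a ∈ A, ∀ b ∈ A, a ≠ b → (Nat.gcd a b : ℝ) ≤ Real.log X ^ K) →
          (A.filter (fun m => Fails δ m ∧ m ∉ G)).card ≤ 2) :=
  Pool.MP_dd84fd_nt.TC.far_set Pool.MP_dd84fd_nt.TC.fin_allH ε hε

end Pool.Agent.Results.MP_dd84fd_nt.GoldbachGaps
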